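import Pool.Agent.W229.HD.Stm

/-!
HD-ANT: the production of the higher norms.
-/

set_option autoImplicit false

open Finset

namespace Pool.Agent.W839.HD

open Pool.Agent.W229.HD

lemma nm_eq (k : K3) : nm k = ‖kc k‖ := by
  unfold nm kc
  rw [EuclideanSpace.norm_eq]
  congr 1
  refine Finset.sum_congr rfl fun j _ => ?_
  change _ = ‖((k j : ℤ) : ℂ)‖ ^ 2
  rw [Complex.norm_intCast, sq_abs]

lemma nm_nonneg (k : K3) : 0 ≤ nm k := Real.sqrt_nonneg _

lemma kc_add (x y : K3) : kc (x + y) = kc x + kc y := by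
  ext j
  simp [kc]

lemma kc_neg (x : K3) : kc (-x) = -kc x := by
  ext j
  simp [kc]

lemma kc_sub (x y : K3) : kc (x - y) = kc x - kc y := by
  ext j
  simp [kc]

lemma nm_neg (x : K3) : nm (-x) = nm x := by
  rw [nm_eq, nm_eq, kc_neg, norm_neg]

lemma dt_comm (v w : E3) : dt v w = dt w v := by
  unfold dt
  exact Finset.sum_congr rfl fun j _ => mul_comm _ _

lemma dt_sub_right (u v w : E3) : dt u (v - w) = dt u v - dt u w := by
  unfold dt
  rw [← Finset.sum_sub_distrib]
  refine Finset.sum_congr rfl fun j _ => ?_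
  change u j * (v j - w j) = _
  ring

lemma dt_neg_right (u v : E3) : dt u (-v) = -dt u v := by
  unfold dt
  rw [← Finset.sum_neg_distrib]
  refine Finset.sum_congr rfl fun j _ => ?_
  change u j * (-v j) = _
  ring

lemma dt_smul_left (c : ℂ) (u v : E3) : dt (c • u) v = c * dt u v := by
  unfold dt
  rw [Finset.mul_sum]
  refine Finset.sum_congr rfl fun j _ => ?_
  change c * u j * v j = _
  ring

lemma dt_zero_left (v : E3) : dt 0 v = 0 := by
  unfold dt
  refine Finset.sum_eq_zero fun j _ => ?_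
  change (0 : ℂ) * v j = 0
  ring

lemma dt_add_left (u v w : E3) : dt (u + v) w = dt u w + dt v w := by
  unfold dt
  rw [← Finset.sum_add_distrib]
  refine Finset.sum_congr rfl fun j _ => ?_
  change (u j + v j) * w j = _
  ring

lemma dt_sum_left {ι : Type} (S : Finset ι) (f : ι → E3) (v : E3) :
    dt (∑ i ∈ S, f i) v = ∑ i ∈ S, dt (f i) v := by
  classical
  induction S using Finset.induction_on with
  | empty => rw [Finset.sum_empty, Finset.sum_empty, dt_zero_left]
  | insert i S hi ih => rw [Finset.sum_insert hi, Finset.sum_insert hi, dt_add_left, ih]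

lemma norm_cj (v : E3) : ‖cj v‖ = ‖v‖ := by
  rw [EuclideanSpace.norm_eq, EuclideanSpace.norm_eq]
  congr 1
  refine Finset.sum_congr rfl fun j _ => ?_
  change ‖star (v j)‖ ^ 2 = _
  rw [norm_star]

lemma norm_dt_le (v w : E3) : ‖dt v w‖ ≤ ‖v‖ * ‖w‖ := by
  have h : dt v w = inner ℂ (cj v) w := by
    rw [PiLp.inner_apply]
    unfold dt
    refine Finset.sum_congr rfl fun j _ => ?_
    change v j * w j = inner ℂ (star (v j)) (w j)
    rw [RCLike.inner_apply]
    simp [mul_comm]
  rw [h, ← norm_cj v]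
  exact norm_inner_le_norm _ _

/-- The elementary inequality. -/
lemma diff_bound (m : ℕ) (hm : 1 ≤ m) (p q r : ℝ) (hp : 0 ≤ p) (hq : 0 ≤ q) (hr : 0 ≤ r)
    (h : |q - p| ≤ r) :
    |q ^ (2 * m) - p ^ (2 * m)| * min p q ≤
      2 * m * (min r (min p q) * max r (max p q) ^ (2 * m)) := by
  have hm' : (1 : ℝ) ≤ m := by exact_mod_cast hm
  set H := max r (max p q) with hH
  have hpH : p ≤ H := le_max_of_le_right (le_max_left _ _)
  have hqH : q ≤ H := le_max_of_le_right (le_max_right _ _)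
  have hH0 : 0 ≤ H := hp.trans hpH
  have hmin0 : 0 ≤ min p q := le_min hp hq
  rcases le_total r (min p q) with h1 | h1
  · rw [min_eq_left h1]
    have h2 := abs_pow_sub_pow_le q p (2 * m)
    rw [abs_of_nonneg hp, abs_of_nonneg hq] at h2
    have h3 : max q p ^ (2 * m - 1) ≤ H ^ (2 * m - 1) :=
      pow_le_pow_left₀ (le_max_of_le_left hq) (max_le hqH hpH) _
    have h4 : |q ^ (2 * m) - p ^ (2 * m)| ≤ r * (2 * m : ℕ) * H ^ (2 * m - 1) := by
      refine h2.trans ?_
      have h5 : (0 : ℝ) ≤ (2 * m : ℕ) := Nat.cast_nonneg _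
      exact mul_le_mul (mul_le_mul_of_nonneg_right h h5) h3
        (pow_nonneg (le_max_of_le_left hq) _) (mul_nonneg hr h5)
    have h6 : H ^ (2 * m) = H ^ (2 * m - 1) * H := by
      rw [← pow_succ]
      congr 1
      omega
    have h7 : min p q ≤ H := (min_le_left _ _).trans hpH
    calc |q ^ (2 * m) - p ^ (2 * m)| * min p q
        ≤ (r * (2 * m : ℕ) * H ^ (2 * m - 1)) * H := by
          exact mul_le_mul h4 h7 hmin0 (by positivity)
      _ = 2 * m * (r * H ^ (2 * m)) := by
          rw [h6]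
          push_cast
          ring
  · rw [min_eq_right h1]
    have h2 : |q ^ (2 * m) - p ^ (2 * m)| ≤ H ^ (2 * m) := by
      rw [abs_le]
      have h3 : p ^ (2 * m) ≤ H ^ (2 * m) := pow_le_pow_left₀ hp hpH _
      have h4 : q ^ (2 * m) ≤ H ^ (2 * m) := pow_le_pow_left₀ hq hqH _
      have h5 : 0 ≤ p ^ (2 * m) := pow_nonneg hp _
      have h6 : 0 ≤ q ^ (2 * m) := pow_nonneg hq _
      constructor <;> linarith
    calc |q ^ (2 * m) - p ^ (2 * m)| * min p q ≤ H ^ (2 * m) * min p q :=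
          mul_le_mul_of_nonneg_right h2 hmin0
      _ = 1 * (min p q * H ^ (2 * m)) := by ring
      _ ≤ 2 * m * (min p q * H ^ (2 * m)) := by
          refine mul_le_mul_of_nonneg_right (by linarith) (by positivity)

section

variable (a : K3 → E3)

/-- the contribution of a triad -/
noncomputable def T (l k : K3) : ℂ := dt (a l) (kc (k - l)) * dt (a (k - l)) (a (-k))

lemma dt_shift (hdiv : ∀ k, dt (kc k) (a k) = 0) (l k : K3) :
    dt (a l) (kc (k - l)) = dt (a l) (kc k) := by
  rw [kc_sub, dt_sub_right, dt_comm (a l) (kc l), hdiv, sub_zero]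

lemma T_swap (hdiv : ∀ k, dt (kc k) (a k) = 0) (l k : K3) : T a l (l - k) = -T a l k := by
  unfold T
  have h1 : l - k - l = -k := by abel
  have h2 : -(l - k) = k - l := by abel
  rw [h1, h2, kc_neg, dt_neg_right, dt_shift a hdiv, dt_comm (a (-k)) (a (k - l))]
  ring

lemma norm_T_le (S : Finset K3) (ha : Fld S a) (x y : K3) :
    ‖T a x (x + y)‖ ≤ min (nm y) (nm (x + y)) * (‖a x‖ * ‖a y‖ * ‖a (x + y)‖) := by
  unfold T
  have h1 : x + y - x = y := by abel
  have h2 : ‖a (-(x + y))‖ = ‖a (x + y)‖ := by rw [ha.real, norm_cj]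
  have h3 := dt_shift a ha.div x (x + y)
  have h4 : ‖dt (a x) (kc (x + y - x))‖ ≤ ‖a x‖ * min (nm y) (nm (x + y)) := by
    rcases le_total (nm y) (nm (x + y)) with h | h
    · rw [min_eq_left h, nm_eq, h1]
      exact norm_dt_le _ _
    · rw [min_eq_right h, nm_eq, h3]
      exact norm_dt_le _ _
  have h5 : ‖dt (a (x + y - x)) (a (-(x + y)))‖ ≤ ‖a y‖ * ‖a (x + y)‖ := by
    rw [h1, ← h2]
    exact norm_dt_le _ _
  rw [norm_mul]
  have h6 : 0 ≤ ‖a x‖ * min (nm y) (nm (x + y)) :=
    mul_nonneg (norm_nonneg _) (le_min (nm_nonneg _) (nm_nonneg _))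
  calc _ ≤ (‖a x‖ * min (nm y) (nm (x + y))) * (‖a y‖ * ‖a (x + y)‖) :=
        mul_le_mul h4 h5 (norm_nonneg _) h6
    _ = _ := by ring

end

/-- HD-ANT -/
theorem ant : S_ANT := by
  intro m hm
  refine ⟨m, Nat.cast_nonneg m, fun S a hS ha => ?_⟩
  classical
  let w : K3 → ℝ := fun k => nm k ^ (2 * m)
  have hw : ∀ k, nm k ^ (((2 * m : ℕ) : ℝ)) = w k := fun k => Real.rpow_natCast _ _
  have hwn : ∀ k, w (-k) = w k := fun k => by
    change nm (-k) ^ (2 * m) = _
    rw [nm_neg]
  -- the production as a sum over triads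
  have h1 : (∑ k ∈ S, ((nm k ^ (((2 * m : ℕ) : ℝ)) : ℝ) : ℂ) * dt (cv S a k) (a (-k))) =
      Complex.I * ∑ l ∈ S, ∑ k ∈ S, (w k : ℂ) * T a l k := by
    rw [Finset.sum_comm, Finset.mul_sum]
    refine Finset.sum_congr rfl fun k _ => ?_
    rw [hw, cv, dt_sum_left, Finset.mul_sum, Finset.mul_sum]
    refine Finset.sum_congr rfl fun l _ => ?_
    rw [dt_smul_left]
    unfold T
    ring
  -- the symmetrized sum
  have h2 : ∀ l ∈ S, ∑ k ∈ S, (w k : ℂ) * T a l k =
      (1 / 2 : ℂ) * ∑ y ∈ S with l + y ∈ S, ((w (l + y) : ℂ) - w y) * T a l (l + y) := by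
    intro l hl
    have h3 : ∑ k ∈ S, (w k : ℂ) * T a l k =
        ∑ k ∈ S with k - l ∈ S, (w k : ℂ) * T a l k := by
      rw [Finset.sum_filter]
      refine Finset.sum_congr rfl fun k _ => ?_
      split_ifs with h
      · rfl
      · have h4 : a (k - l) = 0 := ha.supp _ h
        unfold T
        rw [h4, dt_zero_left, mul_zero, mul_zero]
    have h5 : ∑ k ∈ S with k - l ∈ S, (w k : ℂ) * T a l k =
        ∑ k ∈ S with k - l ∈ S, (w (k - l) : ℂ) * (-T a l k) := by
      refine Finset.sum_bij' (fun k _ => l - k) (fun k _ => l - k) ?_ ?_ ?_ ?_ ?_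
      · intro k hk
        rw [Finset.mem_filter] at hk ⊢
        refine ⟨?_, ?_⟩
        · have := hS.neg _ hk.2
          rwa [neg_sub] at this
        · have h6 : l - k - l = -k := by abel
          rw [h6]
          exact hS.neg _ hk.1
      · intro k hk
        rw [Finset.mem_filter] at hk ⊢
        refine ⟨?_, ?_⟩
        · have := hS.neg _ hk.2
          rwa [neg_sub] at this
        · have h6 : l - k - l = -k := by abel
          rw [h6]
          exact hS.neg _ hk.1
      · intro k _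
        exact sub_sub_cancel l k
      · intro k _
        exact sub_sub_cancel l k
      · intro k _
        have h6 : l - k - l = -k := by abel
        rw [T_swap a ha.div, neg_neg, h6, hwn]
    have h6 : ∑ y ∈ S with l + y ∈ S, ((w (l + y) : ℂ) - w y) * T a l (l + y) =
        ∑ k ∈ S with k - l ∈ S, ((w k : ℂ) - w (k - l)) * T a l k := by
      refine Finset.sum_bij' (fun y _ => l + y) (fun k _ => k - l) ?_ ?_ ?_ ?_ ?_
      · intro y hy
        rw [Finset.mem_filter] at hy ⊢
        exact ⟨hy.2, by rw [add_sub_cancel_left]; exact hy.1⟩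
      · intro k hk
        rw [Finset.mem_filter] at hk ⊢
        exact ⟨hk.2, by rw [add_sub_cancel]; exact hk.1⟩
      · intro y _
        exact add_sub_cancel_left l y
      · intro k _
        exact add_sub_cancel l k
      · intro y _
        rw [add_sub_cancel_left]
    rw [h6]
    have h7 : ∑ k ∈ S with k - l ∈ S, ((w k : ℂ) - w (k - l)) * T a l k =
        (∑ k ∈ S with k - l ∈ S, (w k : ℂ) * T a l k) +
          ∑ k ∈ S with k - l ∈ S, (w (k - l) : ℂ) * (-T a l k) := by
      rw [← Finset.sum_add_distrib]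
      refine Finset.sum_congr rfl fun k _ => ?_
      ring
    rw [h7, ← h5, ← h3]
    ring
  have h3 : |Pr S (2 * m : ℕ) a| ≤ ‖∑ l ∈ S, ∑ k ∈ S, (w k : ℂ) * T a l k‖ := by
    unfold Pr
    rw [h1]
    refine (Complex.abs_re_le_norm _).trans ?_
    rw [norm_mul, Complex.norm_I, one_mul]
  refine h3.trans ?_
  rw [Finset.mul_sum]
  refine (norm_sum_le _ _).trans (Finset.sum_le_sum fun x hx => ?_)
  rw [h2 x hx, norm_mul, Finset.mul_sum]
  have h4 : ‖(1 / 2 : ℂ)‖ = 1 / 2 := by simp
  rw [h4]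
  have h5 : ∀ y, ‖((w (x + y) : ℂ) - w y) * T a x (x + y)‖ ≤
      2 * m * (lo x y * hi x y ^ (2 * m) * (‖a x‖ * ‖a y‖ * ‖a (x + y)‖)) := by
    intro y
    have h6 := norm_T_le a S ha x y
    have h7 : |nm (x + y) - nm y| ≤ nm x := by
      rw [nm_eq, nm_eq, nm_eq, kc_add]
      have h8 := abs_norm_sub_norm_le (kc x + kc y) (kc y)
      rwa [add_sub_cancel_right] at h8
    have h8 := diff_bound m hm (nm y) (nm (x + y)) (nm x) (nm_nonneg _) (nm_nonneg _)
      (nm_nonneg _) h7
    have h9 : ‖((w (x + y) : ℂ) - w y)‖ = |nm (x + y) ^ (2 * m) - nm y ^ (2 * m)| := by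
      rw [← Complex.ofReal_sub, Complex.norm_real]
      rfl
    rw [norm_mul, h9]
    calc _ ≤ |nm (x + y) ^ (2 * m) - nm y ^ (2 * m)| *
          (min (nm y) (nm (x + y)) * (‖a x‖ * ‖a y‖ * ‖a (x + y)‖)) :=
          mul_le_mul_of_nonneg_left h6 (abs_nonneg _)
      _ = (|nm (x + y) ^ (2 * m) - nm y ^ (2 * m)| * min (nm y) (nm (x + y))) *
          (‖a x‖ * ‖a y‖ * ‖a (x + y)‖) := by ring
      _ ≤ (2 * m * (min (nm x) (min (nm y) (nm (x + y))) *
          max (nm x) (max (nm y) (nm (x + y))) ^ (2 * m))) *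
          (‖a x‖ * ‖a y‖ * ‖a (x + y)‖) := mul_le_mul_of_nonneg_right h8 (by positivity)
      _ = _ := by
        unfold lo hi
        ring
  have hpos : ∀ y, 0 ≤ lo x y * hi x y ^ (2 * m) * (‖a x‖ * ‖a y‖ * ‖a (x + y)‖) := by
    intro y
    have h6 : 0 ≤ lo x y := le_min (nm_nonneg _) (le_min (nm_nonneg _) (nm_nonneg _))
    have h7 : 0 ≤ hi x y := le_max_of_le_left (nm_nonneg _)
    positivity
  calc 1 / 2 * ‖∑ y ∈ S with x + y ∈ S, ((w (x + y) : ℂ) - w y) * T a x (x + y)‖
      ≤ 1 / 2 * ∑ y ∈ S with x + y ∈ S,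
        2 * m * (lo x y * hi x y ^ (2 * m) * (‖a x‖ * ‖a y‖ * ‖a (x + y)‖)) := by
        refine mul_le_mul_of_nonneg_left ?_ (by norm_num)
        exact (norm_sum_le _ _).trans (Finset.sum_le_sum fun y _ => h5 y)
    _ ≤ 1 / 2 * ∑ y ∈ S, 2 * m * (lo x y * hi x y ^ (2 * m) * (‖a x‖ * ‖a y‖ * ‖a (x + y)‖)) := by
        refine mul_le_mul_of_nonneg_left ?_ (by norm_num)
        refine Finset.sum_le_sum_of_subset_of_nonneg (Finset.filter_subset _ _) fun y _ _ => ?_
        exact mul_nonneg (by positivity) (hpos y)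
    _ = _ := by
        rw [Finset.mul_sum]
        refine Finset.sum_congr rfl fun y _ => ?_
        ring

end Pool.Agent.W839.HD
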